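import Pool.Agent.Q31.GLV.Stm

/-! # Job GLV-CHN of helper31 (second proof) -/

set_option autoImplicit false

namespace Pool.Agent.Q158.GLV

open Module Cardinal Submodule Pool.Agent.Q31.GLV

section
variable {F V : Type} [Field F] [AddCommGroup V] [Module F V]

theorem le_rank_quot {M : Type} [AddCommGroup M] [Module F M] (W : Submodule F V)
    (ψ : V →ₗ[F] M) (hψ : Function.Surjective ψ) (h : W ≤ LinearMap.ker ψ) :
    Module.rank F M ≤ Module.rank F (V ⧸ W) := by
  refine LinearMap.rank_le_of_surjective (W.liftQ ψ h) ?_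
  intro m
  obtain ⟨v, rfl⟩ := hψ m
  exact ⟨W.mkQ v, by simp⟩

theorem quot_mono {A B : Submodule F V} (h : A ≤ B) :
    Module.rank F (V ⧸ B) ≤ Module.rank F (V ⧸ A) :=
  le_rank_quot A B.mkQ B.mkQ_surjective (by simpa using h)

theorem splitM (hV : ℵ₀ ≤ Module.rank F V) : ∃ N : Submodule F V,
    Module.rank F N = Module.rank F V ∧ Module.rank F (V ⧸ N) = Module.rank F V := by
  have h1 : Module.rank F V = Module.rank F (V × V) := by
    rw [rank_prod', Cardinal.add_eq_self hV]
  obtain ⟨φ⟩ := nonempty_linearEquiv_of_rank_eq h1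
  let ψ : V →ₗ[F] V := (LinearMap.snd F V V) ∘ₗ (φ : V →ₗ[F] V × V)
  have hψ : Function.Surjective ψ := by
    intro v
    exact ⟨φ.symm (0, v), by simp [ψ]⟩
  refine ⟨LinearMap.ker ψ, le_antisymm (Submodule.rank_le _) ?_,
    le_antisymm (rank_quotient_le _) (le_rank_quot _ ψ hψ le_rfl)⟩
  refine LinearMap.rank_le_of_injective
    (((φ.symm : (V × V) →ₗ[F] V) ∘ₗ (LinearMap.inl F V V)).codRestrict (LinearMap.ker ψ)
      (fun v => by simp [ψ])) ?_
  intro x y h
  have := congrArg Subtype.val h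
  simp only [LinearMap.codRestrict_apply, LinearMap.comp_apply, LinearEquiv.coe_coe,
    LinearMap.inl_apply] at this
  have h2 := φ.symm.injective this
  exact congrArg Prod.fst h2

/-- between `P` and `V` -/
theorem splitW (hV : ℵ₀ ≤ Module.rank F V) (P : Submodule F V)
    (hP : Module.rank F (V ⧸ P) = Module.rank F V) : ∃ W : Submodule F V, P ≤ W ∧
      Module.rank F (V ⧸ W) = Module.rank F V ∧
      Module.rank F (W ⧸ P.submoduleOf W) = Module.rank F V := by
  obtain ⟨N, hN1, hN2⟩ := splitM (F := F) (V := V ⧸ P) (hP ▸ hV)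
  refine ⟨N.comap P.mkQ, ?_, ?_, ?_⟩
  · intro v hv
    have : P.mkQ v = 0 := by simpa using hv
    rw [Submodule.mem_comap, this]
    exact N.zero_mem
  · refine le_antisymm (rank_quotient_le _) ?_
    rw [← hP, ← hN2]
    refine le_rank_quot _ (N.mkQ ∘ₗ P.mkQ) (N.mkQ_surjective.comp P.mkQ_surjective) ?_
    intro v hv
    simpa using hv
  · refine le_antisymm ((rank_quotient_le _).trans (Submodule.rank_le _)) ?_
    rw [← hP, ← hN1]
    refine le_rank_quot _ (P.mkQ.restrict (p := N.comap P.mkQ) (q := N) (fun v hv => hv)) ?_ ?_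
    · rintro ⟨n, hn⟩
      obtain ⟨v, rfl⟩ := P.mkQ_surjective n
      exact ⟨⟨v, hn⟩, rfl⟩
    · rintro ⟨v, hv⟩ hv'
      have h3 : v ∈ P := hv'
      rw [LinearMap.mem_ker]
      apply Subtype.ext
      show P.mkQ v = 0
      simpa using h3

theorem near_of (hV : ℵ₀ ≤ Module.rank F V) {A B P : Submodule F V}
    (hP1 : Module.rank F P = Module.rank F V)
    (hP2 : Module.rank F (V ⧸ P) = Module.rank F V) (hA : A ≤ P) (hB : B ≤ P) : Near A B := by
  obtain ⟨W, hPW, h1, h2⟩ := splitW hV P hP2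
  have key : ∀ C : Submodule F V, C ≤ P →
      Module.rank F (W ⧸ C.submoduleOf W) = Module.rank F V := by
    intro C hC
    refine le_antisymm ((rank_quotient_le _).trans (Submodule.rank_le _)) ?_
    rw [← h2]
    exact quot_mono (Submodule.comap_mono hC)
  refine ⟨W, ⟨le_antisymm (Submodule.rank_le _) ?_, h1⟩, hA.trans hPW, hB.trans hPW, key A hA,
    key B hB⟩
  rw [← hP1]
  exact Submodule.rank_mono hPW

/-- the subspace `X` of `A` -/
theorem exists_X (hV : ℵ₀ ≤ Module.rank F V) {A B : Submodule F V} (hA : Large A)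
    (hB : Large B) : ∃ X : Submodule F V, X ≤ A ∧ Module.rank F X = Module.rank F V ∧
      Module.rank F (V ⧸ (X ⊔ B)) = Module.rank F V := by
  by_cases hc : Module.rank F (V ⧸ (A ⊔ B)) = Module.rank F V
  · exact ⟨A, le_rfl, hA.1, hc⟩
  have hlt : Module.rank F (V ⧸ (A ⊔ B)) < Module.rank F V :=
    lt_of_le_of_ne (rank_quotient_le _) hc
  let ρ : A →ₗ[F] (V ⧸ B) := B.mkQ ∘ₗ A.subtype
  have hMR : Module.rank F ((V ⧸ B) ⧸ LinearMap.range ρ) < Module.rank F V := by
    refine lt_of_le_of_lt ?_ hlt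
    refine le_rank_quot _ ((LinearMap.range ρ).mkQ ∘ₗ B.mkQ)
      ((LinearMap.range ρ).mkQ_surjective.comp B.mkQ_surjective) ?_
    rw [sup_le_iff]
    constructor
    · intro a ha
      simp only [LinearMap.mem_ker, LinearMap.comp_apply, Submodule.mkQ_apply,
        Submodule.Quotient.mk_eq_zero]
      exact ⟨⟨a, ha⟩, rfl⟩
    · intro b hb
      have : B.mkQ b = 0 := by simpa using hb
      simp only [LinearMap.mem_ker, LinearMap.comp_apply, this, map_zero]
  have hR : Module.rank F (LinearMap.range ρ) = Module.rank F V := by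
    have h1 := rank_quotient_add_rank (LinearMap.range ρ)
    rw [hB.2] at h1
    by_contra hne
    have hle : Module.rank F (LinearMap.range ρ) ≤ Module.rank F V := by
      rw [← h1]; exact self_le_add_left _ _
    have h2 := Cardinal.add_lt_of_lt hV hMR (lt_of_le_of_ne hle hne)
    rw [h1] at h2
    exact lt_irrefl _ h2
  obtain ⟨N, hN1, hN2⟩ := splitM (F := F) (V := LinearMap.range ρ) (hR ▸ hV)
  obtain ⟨s, hs⟩ := LinearMap.exists_rightInverse_of_surjective ρ.rangeRestrict
    (LinearMap.range_eq_top.2 (LinearMap.surjective_rangeRestrict ρ))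
  have hs' : ∀ r, ρ (s r) = r := by
    intro r
    have := congrArg (fun f => ((f r : LinearMap.range ρ) : V ⧸ B)) hs
    simpa using this
  let j : LinearMap.range ρ →ₗ[F] V := A.subtype ∘ₗ s
  have hj : ∀ r, B.mkQ (j r) = r := fun r => hs' r
  have hji : Function.Injective j := by
    intro x y h
    apply Subtype.ext
    rw [← hj x, ← hj y, h]
  refine ⟨N.map j, ?_, ?_, ?_⟩
  · rintro _ ⟨r, _, rfl⟩
    exact (s r).2
  · rw [← hR, ← hN1]
    exact (LinearEquiv.rank_eq (Submodule.equivMapOfInjective j hji N)).symm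
  · refine le_antisymm (rank_quotient_le _) ?_
    rw [← hR, ← hN2]
    -- `V / (X + B)` maps onto `M / N'`, which contains `R / N`
    let N' : Submodule F (V ⧸ B) := N.map (LinearMap.range ρ).subtype
    have e1 : Module.rank F ((V ⧸ B) ⧸ N') ≤ Module.rank F (V ⧸ (N.map j ⊔ B)) := by
      refine le_rank_quot _ (N'.mkQ ∘ₗ B.mkQ) (N'.mkQ_surjective.comp B.mkQ_surjective) ?_
      rw [sup_le_iff]
      constructor
      · rintro _ ⟨r, hr, rfl⟩
        simp only [LinearMap.mem_ker, LinearMap.comp_apply, hj]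
        rw [Submodule.mkQ_apply, Submodule.Quotient.mk_eq_zero]
        exact ⟨r, hr, rfl⟩
      · intro b hb
        have : B.mkQ b = 0 := by simpa using hb
        simp only [LinearMap.mem_ker, LinearMap.comp_apply, this, map_zero]
    refine le_trans ?_ e1
    refine LinearMap.rank_le_of_injective
      (N.mapQ N' (LinearMap.range ρ).subtype (fun r hr => ⟨r, hr, rfl⟩)) ?_
    rw [← LinearMap.ker_eq_bot, Submodule.ker_mapQ]
    rw [eq_bot_iff]
    rintro _ ⟨r, hr, rfl⟩
    obtain ⟨r', hr', he⟩ := hr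
    have h3 : r' = r := Subtype.ext he
    subst h3
    simpa using hr'

end

theorem t_CHN : S_CHN := by
  intro F V _ _ _ hV A B hA hB
  obtain ⟨X, hXA, hX1, hX2⟩ := exists_X hV hA hB
  refine ⟨X, ⟨hX1, le_antisymm (rank_quotient_le _) ?_⟩, near_of hV hA.1 hA.2 le_rfl hXA,
    near_of hV (P := X ⊔ B) ?_ hX2 le_sup_left le_sup_right⟩
  · rw [← hA.2]
    exact quot_mono hXA
  · refine le_antisymm (Submodule.rank_le _) ?_
    rw [← hX1]
    exact Submodule.rank_mono le_sup_left

end Pool.Agent.Q158.GLV
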