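import Pool.Agent.Q31.GLV.Stm

/-! # Job GLV-T5A of helper31 (second proof) -/

set_option autoImplicit false

namespace Pool.Agent.Q158.GLV

open Module Cardinal Submodule Pool.Agent.Q31.GLV

theorem t_T5A : S_T5A := by
  intro F V _ _ _ _ hμ H hH U hU hN
  obtain ⟨μ, hμ0, hμ1⟩ := hμ
  obtain ⟨k, hkH, hku, hkv⟩ := hN (LinearEquiv.smulOfNeZero F U μ hμ0)
  have hku' : ∀ u : U, k (u : V) = μ • (u : V) := by
    intro u; rw [hku]; simp
  have hm : μ - 1 ≠ 0 := sub_ne_zero.2 hμ1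
  -- the map `γ = k - 1`
  let γ : V →ₗ[F] U := ((k : V →ₗ[F] V) - LinearMap.id).codRestrict U (fun v => by
    simpa using hkv v)
  have hγ : ∀ v, ((γ v : U) : V) = k v - v := by
    intro v; simp [γ]
  let p : V →ₗ[F] U := (μ - 1)⁻¹ • γ
  have hp : ∀ v, ((p v : U) : V) = (μ - 1)⁻¹ • (k v - v) := by
    intro v; simp [p, hγ]
  have hpu : ∀ u : U, p (u : V) = u := by
    intro u
    apply Subtype.ext
    rw [hp, hku']
    rw [show μ • (u : V) - (u : V) = (μ - 1) • (u : V) by rw [sub_smul, one_smul]]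
    rw [smul_smul, inv_mul_cancel₀ hm, one_smul]
  have hγp : ∀ v, ((γ v : U) : V) = (μ - 1) • ((p v : U) : V) := by
    intro v
    rw [hp, hγ, smul_smul, mul_inv_cancel₀ hm, one_smul]
  refine ⟨LinearMap.ker p, LinearMap.isCompl_of_proj hpu, ?_⟩
  intro C₁ hC₁ hr₁ hr₂
  -- the large subspace `W`
  have hW : Large (U ⊔ C₁) := by
    refine ⟨le_antisymm (Submodule.rank_le _) ?_, hr₂⟩
    rw [← hU.1]
    exact Submodule.rank_mono le_sup_left
  obtain ⟨q⟩ := nonempty_linearEquiv_of_rank_eq (hr₁.trans hU.1.symm)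
  -- the projection to `C₁`
  have hc : ∀ w : (U ⊔ C₁ : Submodule F V), ((w : V) - ((p (w : V) : U) : V)) ∈ C₁ := by
    rintro ⟨w, hw⟩
    obtain ⟨u, hu, c, hc, rfl⟩ := Submodule.mem_sup.1 hw
    have h1 : p c = 0 := hC₁ hc
    have h2 : p u = ⟨u, hu⟩ := hpu ⟨u, hu⟩
    simp only [map_add, h1, h2, add_zero]
    simpa using hc
  let c : (U ⊔ C₁ : Submodule F V) →ₗ[F] C₁ :=
    ((LinearMap.id - U.subtype ∘ₗ p) ∘ₗ (U ⊔ C₁).subtype).codRestrict C₁ (fun w => by
      simpa using hc w)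
  have hcv : ∀ w, ((c w : C₁) : V) = (w : V) - ((p (w : V) : U) : V) := by
    intro w; simp [c]
  have hcu : ∀ (u : V) (hu : u ∈ U) (h : u ∈ U ⊔ C₁), c ⟨u, h⟩ = 0 := by
    intro u hu h
    apply Subtype.ext
    rw [hcv]
    have h2 : p u = ⟨u, hu⟩ := hpu ⟨u, hu⟩
    simp [h2]
  have hcc : ∀ (u : V) (hu : u ∈ C₁) (h : u ∈ U ⊔ C₁), c ⟨u, h⟩ = ⟨u, hu⟩ := by
    intro u hu h
    apply Subtype.ext
    rw [hcv]
    have h2 : p u = 0 := hC₁ hu
    simp [h2]
  -- the inclusion of `U` into `W`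
  let i : U →ₗ[F] (U ⊔ C₁ : Submodule F V) := Submodule.inclusion le_sup_left
  have hci : ∀ u : U, c (i u) = 0 := by
    intro u; exact hcu u u.2 _
  let N : (U ⊔ C₁ : Submodule F V) →ₗ[F] (U ⊔ C₁ : Submodule F V) := i ∘ₗ (q : C₁ →ₗ[F] U) ∘ₗ c
  have hNN : ∀ w, N (N w) = 0 := by
    intro w
    simp only [N, LinearMap.comp_apply]
    rw [hci, map_zero, map_zero]
  let g : (U ⊔ C₁ : Submodule F V) ≃ₗ[F] (U ⊔ C₁ : Submodule F V) :=
    LinearEquiv.ofLinearMap (LinearMap.id + N) (LinearMap.id - N)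
      (by ext w; simp [hNN]) (by ext w; simp [hNN])
  have hg : ∀ w, g w = w + N w := by
    intro w; simp [g]
  obtain ⟨h, hhH, hh⟩ := hH _ hW g
  -- `h` on `U` and on `C₁`
  have hhu : ∀ u : U, h (u : V) = u := by
    intro u
    have h1 := hh (i u)
    have h2 : N (i u) = 0 := by
      simp only [N, LinearMap.comp_apply]
      rw [hci, map_zero, map_zero]
    rw [hg, h2, add_zero] at h1
    exact h1
  have hhc : ∀ v (hv : v ∈ C₁), h v = v + ((q ⟨v, hv⟩ : U) : V) := by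
    intro v hv
    have hv' : v ∈ U ⊔ C₁ := (le_sup_right : C₁ ≤ U ⊔ C₁) hv
    have h1 := hh ⟨v, hv'⟩
    rw [hg] at h1
    have h2 : N ⟨v, hv'⟩ = i (q ⟨v, hv⟩) := by
      simp only [N, LinearMap.comp_apply]
      rw [hcc v hv]
      rfl
    rw [h2] at h1
    exact h1
  have hhs : ∀ u : U, h.symm (u : V) = u := by
    intro u
    rw [LinearEquiv.symm_apply_eq]
    exact (hhu u).symm
  refine ⟨γ ∘ₗ ((h : V →ₗ[F] V) - LinearMap.id), ⟨?_, ?_⟩, ?_⟩
  · intro u
    simp [hhu]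
  · refine ⟨h⁻¹ * k * h * k⁻¹, ?_, ?_⟩
    · exact H.mul_mem (H.mul_mem (H.mul_mem (H.inv_mem hhH) hkH) hhH) (H.inv_mem hkH)
    · intro v
      obtain ⟨x, rfl⟩ := k.surjective v
      have e1 : (h⁻¹ * k * h * k⁻¹) (k x) = h.symm (k (h x)) := by
        have : k.symm (k x) = x := k.symm_apply_apply x
        show h.symm (k (h (k.symm (k x)))) = _
        rw [this]
      have e2 : ∀ y, k y = y + ((γ y : U) : V) := by
        intro y; rw [hγ]; abel
      rw [e1, e2 (h x), map_add, h.symm_apply_apply, hhs]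
      have e3 : h (k x) - k x = h x - x := by
        rw [e2 x, map_add, hhu]; abel
      simp only [LinearMap.comp_apply, LinearMap.sub_apply, LinearMap.id_apply,
        LinearEquiv.coe_coe]
      rw [e3, map_sub, e2 x]
      push_cast
      abel
  · intro v hv h0
    simp only [LinearMap.comp_apply, LinearMap.sub_apply, LinearMap.id_apply,
        LinearEquiv.coe_coe] at h0
    rw [hhc v hv, add_sub_cancel_left] at h0
    have h1 : ((γ ((q ⟨v, hv⟩ : U) : V) : U) : V) = 0 := by rw [h0]; rfl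
    rw [hγp, hpu] at h1
    have h2 : ((q ⟨v, hv⟩ : U) : V) = 0 := (smul_eq_zero.1 h1).resolve_left hm
    have h3 : q ⟨v, hv⟩ = 0 := Subtype.ext h2
    have h4 := q.map_eq_zero_iff.1 h3
    exact congrArg Subtype.val h4

end Pool.Agent.Q158.GLV
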