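import Pool.Agent.Q31.GLV.Stm

/-! # Job GLV-WH of helper31: the Whitehead lemma -/

set_option autoImplicit false

namespace Pool.Agent.Q158.GLV

open Module Cardinal Submodule Pool.Agent.Q31.GLV

section
variable {F V X Y : Type} [Field F] [AddCommGroup V] [Module F V]
  [AddCommGroup X] [Module F X] [AddCommGroup Y] [Module F Y]

/-- the elementary map `(x, y, z) ↦ (x + a y, y, z)` -/
def e12 (Y : Type) [AddCommGroup Y] [Module F Y] (a : X →ₗ[F] X) :
    (X × X × Y) ≃ₗ[F] (X × X × Y) where
  toFun p := (p.1 + a p.2.1, p.2)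
  invFun p := (p.1 - a p.2.1, p.2)
  map_add' p q := by
    ext
    · simp only [Prod.fst_add, Prod.snd_add, map_add]; abel
    · simp
    · simp
  map_smul' c p := by
    ext <;> simp [smul_add]
  left_inv p := by ext <;> simp
  right_inv p := by ext <;> simp

/-- the elementary map `(x, y, z) ↦ (x, y + a x, z)` -/
def e21 (Y : Type) [AddCommGroup Y] [Module F Y] (a : X →ₗ[F] X) :
    (X × X × Y) ≃ₗ[F] (X × X × Y) where
  toFun p := (p.1, p.2.1 + a p.1, p.2.2)
  invFun p := (p.1, p.2.1 - a p.1, p.2.2)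
  map_add' p q := by
    ext
    · simp
    · simp only [Prod.fst_add, Prod.snd_add, map_add]; abel
    · simp
  map_smul' c p := by
    ext <;> simp [smul_add]
  left_inv p := by ext <;> simp
  right_inv p := by ext <;> simp

/-- a submodule into which `X` embeds and whose quotient contains `X` is large -/
theorem large_of {W : Submodule F V} (hr : Module.rank F X = Module.rank F V)
    (i : X →ₗ[F] V) (hi : Function.Injective i) (hiW : ∀ x, i x ∈ W)
    (j : X →ₗ[F] V) (hj : ∀ x, j x ∈ W → x = 0) : Large W := by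
  constructor
  · refine le_antisymm (Submodule.rank_le W) ?_
    rw [← hr]
    refine LinearMap.rank_le_of_injective (i.codRestrict W hiW) ?_
    intro x y h
    apply hi
    have := congrArg Subtype.val h
    simpa using this
  · refine le_antisymm (rank_quotient_le W) ?_
    rw [← hr]
    refine LinearMap.rank_le_of_injective (W.mkQ ∘ₗ j) ?_
    rw [injective_iff_map_eq_zero]
    intro x hx
    apply hj
    simpa using hx

theorem t_WH : S_WH := by
  intro F V X Y _ _ _ _ _ _ _ φ _ hr S hS f t ht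
  -- the two large subspaces
  let W1 : Submodule F V := LinearMap.ker ((LinearMap.snd F X (X × Y)) ∘ₗ (φ : V →ₗ[F] X × X × Y))
  let W2 : Submodule F V := LinearMap.ker
    (((LinearMap.fst F X (X × Y)).prod ((LinearMap.snd F X Y) ∘ₗ (LinearMap.snd F X (X × Y)))) ∘ₗ
      (φ : V →ₗ[F] X × X × Y))
  have m1 : ∀ v, v ∈ W1 ↔ (φ v).2 = 0 := by
    intro v; simp [W1]
  have m2 : ∀ v, v ∈ W2 ↔ ((φ v).1 = 0 ∧ (φ v).2.2 = 0) := by
    intro v; simp [W2]
  let i1 : X →ₗ[F] V := (φ.symm : (X × X × Y) →ₗ[F] V) ∘ₗ (LinearMap.inl F X (X × Y))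
  let i2 : X →ₗ[F] V := (φ.symm : (X × X × Y) →ₗ[F] V) ∘ₗ (LinearMap.inr F X (X × Y)) ∘ₗ
    (LinearMap.inl F X Y)
  have hi1 : ∀ x, φ (i1 x) = (x, 0, 0) := by
    intro x; simp [i1]; rfl
  have hi2 : ∀ x, φ (i2 x) = (0, x, 0) := by
    intro x; simp [i2]
  have inj1 : Function.Injective i1 := by
    intro x y h
    have := congrArg (fun v => (φ v).1) h
    simpa [hi1] using this
  have inj2 : Function.Injective i2 := by
    intro x y h
    have := congrArg (fun v => (φ v).2.1) h
    simpa [hi2] using this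
  have L1 : Large W1 := by
    refine large_of hr i1 inj1 (fun x => (m1 _).2 (by rw [hi1]; rfl)) i2 (fun x hx => ?_)
    have := (m1 _).1 hx
    rw [hi2] at this
    exact congrArg Prod.fst this
  have L2 : Large W2 := by
    refine large_of hr i2 inj2 (fun x => (m2 _).2 (by rw [hi2]; exact ⟨rfl, rfl⟩)) i1
      (fun x hx => ?_)
    have := ((m2 _).1 hx).1
    rw [hi1] at this
    exact this
  let E12 : (X →ₗ[F] X) → (V ≃ₗ[F] V) := fun a => (φ.trans (e12 Y a)).trans φ.symm
  let E21 : (X →ₗ[F] X) → (V ≃ₗ[F] V) := fun a => (φ.trans (e21 Y a)).trans φ.symm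
  have h12 : ∀ a v, φ (E12 a v) = ((φ v).1 + a (φ v).2.1, (φ v).2) := by
    intro a v; simp [E12, e12]
  have h21 : ∀ a v, φ (E21 a v) = ((φ v).1, (φ v).2.1 + a (φ v).1, (φ v).2.2) := by
    intro a v; simp [E21, e21]
  have s12 : ∀ a, E12 a ∈ S := by
    intro a
    refine hS W1 L1 _ ⟨fun w hw => ?_, fun v => ?_⟩
    · apply φ.injective
      rw [h12]
      have h0 := (m1 _).1 hw
      have h1 : (φ w).2.1 = 0 := by rw [h0]; rfl
      rw [h1, map_zero, add_zero]
    · rw [m1, map_sub, h12]
      simp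
  have s21 : ∀ a, E21 a ∈ S := by
    intro a
    refine hS W2 L2 _ ⟨fun w hw => ?_, fun v => ?_⟩
    · apply φ.injective
      rw [h21]
      have h0 := ((m2 _).1 hw).1
      rw [h0, map_zero, add_zero]
      ext
      · exact h0.symm
      · rfl
      · rfl
    · rw [m2, map_sub, h21]
      simp
  have key : t = (E12 (f : X →ₗ[F] X) * E21 (-(f.symm : X →ₗ[F] X)) * E12 (f : X →ₗ[F] X)) *
      (E12 (-LinearMap.id) * E21 LinearMap.id * E12 (-LinearMap.id)) := by
    ext v
    apply φ.injective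
    rw [ht]
    simp only [LinearEquiv.mul_apply, h12, h21]
    ext
    · simp
    · simp
    · simp
  rw [key]
  exact S.mul_mem (S.mul_mem (S.mul_mem (s12 _) (s21 _)) (s12 _))
    (S.mul_mem (S.mul_mem (s12 _) (s21 _)) (s12 _))

end

end Pool.Agent.Q158.GLV
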